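import Pool.Agent.W423.MG.Fin

set_option autoImplicit false

/-! The multi-variable topological zeta function of a very general tuple (without coordinates):
definitions and the statements of the parts. -/

namespace Pool.Agent.W423.NC

open MvPolynomial Pool.Agent.H628R4.TZ Pool.Agent.W425.SM
open Pool.Agent.H628R4.TP hiding Sh
open Pool.Agent.W525.SM (Sh)
open Pool.Agent.W423.MG
open MeasureTheory Filter Topology

variable {r N P : ℕ}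

/-! ### The statement -/

/-- The linear form `∑_k ord_ρ(g_k) s_k + ∑_i ρ_i` of the toric divisor of the ray `ρ`:
the order of `g_k` along this divisor is `ordG g v k ρ`, and the order of the Jacobian determinant
of the toric morphism is `∑_i ρ_i - 1`. -/
noncomputable def linT (g : Fin r → Fin (P+1)) (v : Fin r → Fin N → ℕ) (ρ : Fin N → ℕ) :
    MvPolynomial (Fin (P+1)) ℂ :=
  ∑ k, C (ordG g v k ρ : ℂ) * X k + C ((∑ l, ρ l : ℕ) : ℂ)

/-- The topological zeta function, in the variables `s_0, …, s_P`, of the tuple `(g_0, …, g_P)`,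
computed on the toric log resolution given by `R`. -/
noncomputable def topZetaT (g : Fin r → Fin (P+1)) (v : Fin r → Fin N → ℕ) (θ : Fin r → ℝ)
    (R : SmoothFan N) : FractionRing (MvPolynomial (Fin (P+1)) ℂ) :=
  ∑ σ ∈ R.cones, (∑ K : Finset (Fin (P+1)),
      ((chiStrG g v θ σ K : ℤ) : FractionRing (MvPolynomial (Fin (P+1)) ℂ)) *
        ∏ k ∈ K, (algebraMap (MvPolynomial (Fin (P+1)) ℂ) _ (X k + 1))⁻¹) *
    ∏ ρ ∈ σ, (algebraMap (MvPolynomial (Fin (P+1)) ℂ) _ (linT g v ρ))⁻¹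

/-! ### Tools -/

/-- the groups with at least two terms -/
def mulS (g : Fin r → Fin (P+1)) : Finset (Fin (P+1)) :=
  Finset.univ.filter fun k => 2 ≤ (Finset.univ.filter fun j => g j = k).card

/-- `∏ (S_k + 1)` over the groups with one term -/
noncomputable def E1 (g : Fin r → Fin (P+1)) : MvPolynomial (Fin r) ℂ :=
  ∏ j ∈ Finset.univ.filter (fun j => g j ∉ mulS g), (X j + 1)

/-- `∏ (s_k + 1)` over the groups with at least two terms -/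
noncomputable def E2 (g : Fin r → Fin (P+1)) : MvPolynomial (Fin (P+1)) ℂ :=
  ∏ k ∈ mulS g, (X k + 1)

/-- the substitution of the group sums -/
noncomputable def bts (g : Fin r → Fin (P+1)) :
    MvPolynomial (Fin (P+1)) ℂ →ₐ[ℂ] MvPolynomial (Fin r) ℂ := aeval (sgm g)

/-- The relation, given by the functional equation. -/
def RelT (g : Fin r → Fin (P+1)) (v : Fin r → Fin N → ℕ) (θ : Fin r → ℝ)
    (p : MvPolynomial (Fin (P+1)) ℂ) : Prop :=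
  ∃ (M : ℕ) (Cs Cs0 : Finset (Fin r → ℤ)) (q q0 : (Fin r → ℤ) → MvPolynomial (Fin r) ℂ),
    (∀ c ∈ Cs, ∀ k, gs g c k = 1) ∧
    (∀ c ∈ Cs0, (∀ k, gs g c k = 0) ∧ (∀ i, Sh v c i = 0) ∧ 0 < ∑ j, (c j : ℝ) * θ j) ∧
    bts g p * ∏ j, dm M j =
      ∑ c ∈ Cs, (∏ i ∈ Bc v c, el v i) *
        ((∏ j, if c j < 0 then X j * dm M j else 1) * (E1 g * q c)) +
      ∑ c ∈ Cs0, (∏ j, if c j < 0 then X j * dm M j else 1) * (E1 g * q0 c)

/-- Algebra: from the functional equation to the relation. -/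
def TaskAlg : Prop := ∀ {r N P : ℕ} (g : Fin r → Fin (P+1)) (v : Fin r → Fin N → ℕ)
  (a : Fin r → ℂ), (∀ k, ∃ j, g j = k) → (∀ j j', g j = g j' → v j = v j' → j = j') →
  AlgebraicIndependent ℚ a → ∀ (θ : Fin r → ℝ), LinearIndependent ℚ θ →
  ∀ b : MvPolynomial (Fin (P+1)) ℚ, InBSIdealT (polyG g v a) (map (algebraMap ℚ ℂ) b) →
  ∃ p : MvPolynomial (Fin (P+1)) ℂ, map (algebraMap ℚ ℂ) b = E2 g * p ∧ RelT g v θ p

/-! ### The machine, general weights -/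

/-- weights: `s` and `w` -/
def lmw (s : ℝ) (w : Fin N → ℝ) : Fin (N+1) → ℝ := Fin.cons s w

/-- `w_i + ℓ_i` -/
noncomputable def elW (v : Fin r → Fin N → ℕ) (w : Fin N → ℝ) (i : Fin N) :
    MvPolynomial (Fin r) ℂ := C ((w i : ℝ) : ℂ) + Lf (fun j => (v j i : ℝ))

/-- the translation vector -/
noncomputable def yW (v : Fin r → Fin N → ℕ) (θ : Fin r → ℝ) (α : Fin N → ℝ) (T δ ϑ : ℝ)
    (j : Fin r) : ℝ := -T - δ * ∑ i, α i * (v j i : ℝ) - ϑ * θ j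

/-- The relation for general weights. -/
def RelW (v : Fin r → Fin N → ℕ) (w : Fin N → ℝ) (θ : Fin r → ℝ)
    (e W : MvPolynomial (Fin r) ℂ) : Prop :=
  ∃ (M : ℕ) (Cs Cs0 : Finset (Fin r → ℤ)) (q q0 : (Fin r → ℤ) → MvPolynomial (Fin r) ℂ),
    (∀ c ∈ Cs, ∑ j, c j = 1) ∧
    (∀ c ∈ Cs0, ∑ j, c j = 0 ∧ (∀ i, Sh v c i = 0) ∧ 0 < ∑ j, (c j : ℝ) * θ j) ∧
    W * ∏ j, dm M j =
      ∑ c ∈ Cs, (∏ i ∈ Bc v c, elW v w i) *
        ((∏ j, if c j < 0 then X j * dm M j else 1) * (e * q c)) +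
      ∑ c ∈ Cs0, (∏ j, if c j < 0 then X j * dm M j else 1) * (e * q0 c)

/-- **The functional kills `k * W`.** -/
def TaskKill : Prop := ∀ {r N : ℕ} (v : Fin r → Fin N → ℕ) (w : Fin N → ℝ), (∀ i, 0 < w i) →
  ∀ (θ : Fin r → ℝ) (e W k : MvPolynomial (Fin r) ℂ), RelW v w θ e W →
  (∀ (κ : Fin r → ℕ) (i : Fin N), ((∑ j, κ j * v j i : ℕ) : ℝ) = w i →
    k * e ∈ Ideal.span {p : MvPolynomial (Fin r) ℂ | ∃ j, 0 < v j i ∧
      p = X j + C ((κ j : ℕ) : ℂ)}) →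
  ∀ α : Fin N → ℝ, ∃ K0 s0 : ℝ, 0 ≤ K0 ∧ 0 < s0 ∧ ∀ ε > 0, ∀ ϑ > 0, ε * K0 < ϑ →
    ∀ δ T : ℝ, (ε + |δ| + ϑ) * K0 < T → ∀ s : ℝ, s0 ≤ s →
    Φ (ph ε) ∅ (lmw s w) (av v) (yW v θ α T δ ϑ) (k * W) = 0

/-! ### The extended system -/

/-- the exponents of the extended system, in the variables `β_0, …, β_P, x_1, …, x_N` -/
def vh (g : Fin r → Fin (P+1)) (v : Fin r → Fin N → ℕ) : Fin (r+1) → Fin (P+1+N) → ℕ :=
  Fin.cons (Fin.append (fun _ => 1) (fun _ => 0))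
    (fun j => Fin.append (fun k => if g j = k then 0 else 1) (v j))

/-- the weights of the extended system -/
def wh (η : Fin (P+1) → ℝ) : Fin (P+1+N) → ℝ := Fin.append η (fun _ => 1)

/-- the renaming of the variables -/
noncomputable def rn : MvPolynomial (Fin r) ℂ →ₐ[ℂ] MvPolynomial (Fin (r+1)) ℂ :=
  rename Fin.succ

/-- Transfer of the relation to the extended system. -/
def TaskTrans : Prop := ∀ {r N P : ℕ} (g : Fin r → Fin (P+1)) (v : Fin r → Fin N → ℕ)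
  (θ : Fin r → ℝ) (θ0 : ℝ) (η : Fin (P+1) → ℝ) (p : MvPolynomial (Fin (P+1)) ℂ),
  RelT g v θ p →
  RelW (vh g v) (wh η) (Fin.cons θ0 θ) (rn (E1 g)) (X 0 * rn (bts g p))

/-! ### The kernel -/

/-- the kernel -/
noncomputable def kerN (g : Fin r → Fin (P+1)) (v : Fin r → Fin N → ℕ) :
    MvPolynomial (Fin r) ℂ :=
  (∑ J ∈ (Finset.univ.filter fun j => g j ∈ mulS g).powerset,
      C ((idxC g v J : ℂ) ^ 2) * ∏ j ∈ J, X j) *
    ((∏ k ∈ mulS g, sgm g k) * ∏ j ∈ Finset.univ.filter (fun j => g j ∉ mulS g), X j)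

/-- `s_k + 1` if `J` has one element in the group `k`, and `s_k` if there are more (`k` a group
with at least two terms) -/
noncomputable def hJ (g : Fin r → Fin (P+1)) (J : Finset (Fin r)) :
    MvPolynomial (Fin (P+1)) ℂ :=
  ∏ k ∈ mulS g, (X k + if (J.filter fun j => g j = k).card = 1 then 1 else 0)

/-- The property of the kernel. -/
def TaskKer1 : Prop := ∀ {r N P : ℕ} (g : Fin r → Fin (P+1)) (v : Fin r → Fin N → ℕ)
  (η : Fin (P+1) → ℝ), (∀ k, 0 < η k ∧ η k < 1) → ∀ (κ : Fin (r+1) → ℕ) (i : Fin (P+1+N)),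
  ((∑ j, κ j * vh g v j i : ℕ) : ℝ) = wh (N := N) η i →
    rn (kerN g v) * rn (E1 g) ∈ Ideal.span {p : MvPolynomial (Fin (r+1)) ℂ |
      ∃ j, 0 < vh g v j i ∧ p = X j + C ((κ j : ℕ) : ℂ)}

/-- The expansion of the kernel. -/
def TaskKer2 : Prop := ∀ {r N P : ℕ} (g : Fin r → Fin (P+1)) (v : Fin r → Fin N → ℕ),
  (∀ k, ∃ j, g j = k) →
  kerN g v = ∑ J ∈ Finset.univ.filter (fun J : Finset (Fin r) => ∀ k, ∃ j ∈ J, g j = k),
    C ((idxC g v J : ℂ) ^ 2) * ((∏ j ∈ J, X j) * bts g (hJ g J))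

/-! ### The limit -/

/-- the matrix of the forms -/
def Ah (g : Fin r → Fin (P+1)) (v : Fin r → Fin N → ℕ) : Fin (r+1) → Fin (P+1+N+1) → ℤ :=
  fun j => Fin.cons (-1) (fun i => (vh g v j i : ℤ))

/-- the direction of the translation -/
noncomputable def bh (K α0 : ℝ) : Fin (P+1+N+1) → ℝ :=
  Fin.cons (-K) (Fin.append (fun _ => α0) (fun _ => 1))

/-- `{0} ∪ (J + 1)` -/
def Jh (J : Finset (Fin r)) : Finset (Fin (r+1)) := insert 0 (J.map (Fin.succEmb r))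

/-- the value of the linear form of `ρ` at `s + η` -/
noncomputable def kT (g : Fin r → Fin (P+1)) (v : Fin r → Fin N → ℕ) (η : Fin (P+1) → ℝ) (s : ℝ)
    (ρ : Fin N → ℕ) : ℝ := ∑ k, (ordG g v k ρ : ℝ) * (s + η k) + ((∑ l, ρ l : ℕ) : ℝ)

/-- the limit for `J` -/
noncomputable def limT (g : Fin r → Fin (P+1)) (v : Fin r → Fin N → ℕ) (θ : Fin r → ℝ)
    (R : SmoothFan N) (η : Fin (P+1) → ℝ) (J : Finset (Fin r)) (s : ℝ) : ℂ :=
  open Classical in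
  ∑ σ ∈ R.cones, if J ⊆ minSetG g v σ ∧ σ.card + J.card = P + N + 1 ∧
      (∃ ρ ∈ σ, ∃ k, ordG g v k ρ ≠ 0) ∧ AdmC g v θ J then
    (idxC g v J : ℂ)⁻¹ * ∏ ρ ∈ σ, ((kT g v η s ρ : ℝ) : ℂ)⁻¹ else 0

/-- The index and the admissibility. -/
def TaskIdx : Prop := ∀ {r N P : ℕ} (g : Fin r → Fin (P+1)) (v : Fin r → Fin N → ℕ)
  (J : Finset (Fin r)), idxA (Ah g v) (Jh J) = idxC g v J ∧
    ∀ (θ : Fin r → ℝ) (θ0 : ℝ), AdmA (Ah g v) (Fin.cons θ0 θ) (Jh J) ↔ AdmC g v θ J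

/-- The limit. -/
def TaskLim : Prop := ∀ {r N P : ℕ} (g : Fin r → Fin (P+1)) (v : Fin r → Fin N → ℕ)
  (θ : Fin r → ℝ) (θ0 : ℝ), LinearIndependent ℚ (Fin.cons θ0 θ : Fin (r+1) → ℝ) →
  (∀ k, ∃ j, g j = k) → ∀ (R : SmoothFan N), PrincipalG g v R →
  ∀ (η : Fin (P+1) → ℝ), (∀ k, 0 < η k) → ∀ (J : Finset (Fin r)), idxC g v J ≠ 0 →
  (∀ k, ∃ j ∈ J, g j = k) → ∀ K : ℝ, 0 < K → ∀ α0 : ℝ, 0 < α0 → ∀ s : ℝ, 0 < s →
  Tendsto (fun m : ℕ => ∫ x, integA (Ah g v) (Fin.cons θ0 θ) (lmw s (wh η)) (bh K α0) (Jh J) m x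
      ∂(Measure.pi (ms (∅ : Finset (Fin (P+1+N+1)))))) atTop (𝓝 (limT g v θ R η J s))

/-! ### The evaluation -/

/-- The evaluation on the lines `s_k = s + η_k`. -/
def TaskEval : Prop := ∀ {r N P : ℕ} (g : Fin r → Fin (P+1)) (v : Fin r → Fin N → ℕ)
  (θ : Fin r → ℝ), LinearIndependent ℚ θ →
  (∀ k, ∃ j, g j = k) → ∀ (R : SmoothFan N), PrincipalG g v R →
  ∀ p : MvPolynomial (Fin (P+1)) ℂ, RelT g v θ p →
  ∀ η : Fin (P+1) → ℝ, (∀ k, 0 < η k ∧ η k < 1) →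
  ∃ (Q : Polynomial ℂ) (s1 : ℝ), 0 < s1 ∧ ∀ s : ℝ, s1 ≤ s →
    eval (fun k => ((s + η k : ℝ) : ℂ)) p *
      ∑ J ∈ Finset.univ.filter (fun J : Finset (Fin r) => ∀ k, ∃ j ∈ J, g j = k),
        (-1) ^ J.card * (idxC g v J : ℂ) ^ 2 * eval (fun k => ((s + η k : ℝ) : ℂ)) (hJ g J) *
          limT g v θ R η J s = Q.eval (s : ℂ)

/-! ### The zeta function -/

/-- The zeta function is determined on the lines. -/
def TaskZeta : Prop := ∀ {r N P : ℕ} (g : Fin r → Fin (P+1)) (v : Fin r → Fin N → ℕ)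
  (θ : Fin r → ℝ), (∀ k, ∃ j, g j = k) → ∀ (R : SmoothFan N),
  ∀ p : MvPolynomial (Fin (P+1)) ℂ,
  (∀ η : Fin (P+1) → ℝ, (∀ k, 0 < η k ∧ η k < 1) →
    ∃ (Q : Polynomial ℂ) (s1 : ℝ), 0 < s1 ∧ ∀ s : ℝ, s1 ≤ s →
    eval (fun k => ((s + η k : ℝ) : ℂ)) p *
      ∑ J ∈ Finset.univ.filter (fun J : Finset (Fin r) => ∀ k, ∃ j ∈ J, g j = k),
        (-1) ^ J.card * (idxC g v J : ℂ) ^ 2 * eval (fun k => ((s + η k : ℝ) : ℂ)) (hJ g J) *
          limT g v θ R η J s = Q.eval (s : ℂ)) →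
  ∃ Z : MvPolynomial (Fin (P+1)) ℂ,
    algebraMap _ (FractionRing (MvPolynomial (Fin (P+1)) ℂ)) (E2 g * p) *
      topZetaT g v θ R = algebraMap _ _ Z

/-- The theorem. -/
def MainT : Prop := ∀ {r N P : ℕ} (g : Fin r → Fin (P+1)) (v : Fin r → Fin N → ℕ)
  (a : Fin r → ℂ), (∀ k, ∃ j, g j = k) → (∀ j j', g j = g j' → v j = v j' → j = j') →
  AlgebraicIndependent ℚ a → ∀ (θ : Fin r → ℝ), LinearIndependent ℚ θ →
  ∀ (R : SmoothFan N), PrincipalG g v R →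
  ∀ b : MvPolynomial (Fin (P+1)) ℚ, InBSIdealT (polyG g v a) (map (algebraMap ℚ ℂ) b) →
  ∃ Z : MvPolynomial (Fin (P+1)) ℂ,
    algebraMap _ (FractionRing (MvPolynomial (Fin (P+1)) ℂ)) (map (algebraMap ℚ ℂ) b) *
      topZetaT g v θ R = algebraMap _ _ Z

theorem main_of (h1 : TaskAlg) (h2 : TaskEval) (h3 : TaskZeta) : MainT := by
  intro r N P g v a hg hinj ha θ hθ R hR b hb
  obtain ⟨p, hp, hrel⟩ := h1 g v a hg hinj ha θ hθ b hb
  rw [hp]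
  exact h3 g v θ hg R p fun η hη => h2 g v θ hθ hg R hR p hrel η hη

end Pool.Agent.W423.NC
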