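import Pool.Agent.W423.NC.Defs

set_option autoImplicit false

/-! Stokes in the extended system. -/

namespace Pool.Agent.W423.NC

open MvPolynomial Pool.Agent.H628R4.TZ Pool.Agent.W425.SM
open Pool.Agent.H628R4.TP hiding Sh
open Pool.Agent.W525.SM (Sh)
open Pool.Agent.W423.MG
open MeasureTheory Set Filter Topology

variable {r N P n : ℕ}

lemma aR_Ah (g : Fin r → Fin (P+1)) (v : Fin r → Fin N → ℕ) : aR (Ah g v) = av (vh g v) := by
  funext j i
  unfold aR Ah av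
  refine Fin.cases ?_ (fun i => ?_) i
  · simp
  · simp

/-- the extension by an independent number -/
lemma exists_ext (θ : Fin r → ℝ) (hθ : LinearIndependent ℚ θ) :
    ∃ θ0 : ℝ, LinearIndependent ℚ (Fin.cons θ0 θ : Fin (r+1) → ℝ) := by
  have h1 : ∃ x : ℝ, x ∉ Submodule.span ℚ (Set.range θ) := by
    by_contra hcon
    push Not at hcon
    have h2 : Submodule.span ℚ (Set.range θ) = ⊤ := Submodule.eq_top_iff'.2 hcon
    have h3 : Module.Finite ℚ ℝ := ⟨⟨(Set.finite_range θ).toFinset, by simpa using h2⟩⟩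
    have h4 : Countable ℝ := by
      obtain ⟨n, f, hf⟩ := Module.Finite.exists_fin' ℚ ℝ
      exact hf.countable
    exact not_countable h4
  obtain ⟨x, hx⟩ := h1
  exact ⟨x, linearIndependent_finCons.2 ⟨hθ, hx⟩⟩

lemma D_big (ε : ℝ) (hε : 0 < ε) (y : Fin r → ℝ) (j : Fin r) (hj : ε < y j)
    (p : MvPolynomial (Fin r) ℂ) : D (ph ε) y (X j * p) = 0 := by
  induction p using MvPolynomial.induction_on' with
  | monomial k a =>
    rw [X, monomial_mul, D_monomial, W]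
    rw [Finset.prod_eq_zero (Finset.mem_univ j) (ph_big ε hε _ (by simp) _ hj)]
    simp
  | add p q hp hq => rw [mul_add, map_add, hp, hq, add_zero]

/-- the sum of all variables -/
noncomputable def Sg (r : ℕ) : MvPolynomial (Fin (r+1)) ℂ := ∑ j, X j

/-- `η_k + X_0 + S - S_k` -/
noncomputable def tb (g : Fin r → Fin (P+1)) (η : Fin (P+1) → ℝ) (k : Fin (P+1)) :
    MvPolynomial (Fin (r+1)) ℂ := C ((η k : ℝ) : ℂ) + (Sg r - rn (sgm g k))

lemma vh_castAdd0 (g : Fin r → Fin (P+1)) (v : Fin r → Fin N → ℕ) (k : Fin (P+1)) :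
    vh g v 0 (Fin.castAdd N k) = 1 := by
  unfold vh
  rw [Fin.cons_zero, Fin.append_left]

lemma vh_castAdds (g : Fin r → Fin (P+1)) (v : Fin r → Fin N → ℕ) (j : Fin r) (k : Fin (P+1)) :
    vh g v j.succ (Fin.castAdd N k) = if g j = k then 0 else 1 := by
  unfold vh
  rw [Fin.cons_succ, Fin.append_left]

lemma vh_natAdd0 (g : Fin r → Fin (P+1)) (v : Fin r → Fin N → ℕ) (i : Fin N) :
    vh g v 0 (Fin.natAdd (P+1) i) = 0 := by
  unfold vh
  rw [Fin.cons_zero, Fin.append_right]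

lemma vh_natAdds (g : Fin r → Fin (P+1)) (v : Fin r → Fin N → ℕ) (j : Fin r) (i : Fin N) :
    vh g v j.succ (Fin.natAdd (P+1) i) = v j i := by
  unfold vh
  rw [Fin.cons_succ, Fin.append_right]

lemma wh_castAdd (η : Fin (P+1) → ℝ) (k : Fin (P+1)) :
    wh (N := N) η (Fin.castAdd N k) = η k := by
  unfold wh
  rw [Fin.append_left]

lemma wh_natAdd (η : Fin (P+1) → ℝ) (i : Fin N) :
    wh (N := N) η (Fin.natAdd (P+1) i) = 1 := by
  unfold wh
  rw [Fin.append_right]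

lemma wh_pos (η : Fin (P+1) → ℝ) (hη : ∀ k, 0 < η k) (i : Fin (P+1+N)) :
    0 < wh (N := N) η i := by
  refine Fin.addCases (fun k => ?_) (fun i => ?_) i
  · rw [wh_castAdd]; exact hη k
  · rw [wh_natAdd]; exact one_pos

lemma lmw_pos (s : ℝ) (hs : 0 < s) (w : Fin n → ℝ) (hw : ∀ i, 0 < w i) (i : Fin (n+1)) :
    0 < lmw s w i := by
  unfold lmw
  refine Fin.cases ?_ (fun j => ?_) i
  · simpa using hs
  · simpa using hw j

lemma rn_sgm (g : Fin r → Fin (P+1)) (k : Fin (P+1)) :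
    rn (sgm g k) = ∑ j, if g j = k then (X j.succ : MvPolynomial (Fin (r+1)) ℂ) else 0 := by
  unfold rn sgm gs
  rw [map_sum]
  refine Finset.sum_congr rfl fun j _ => ?_
  split_ifs
  · rw [rename_X]
  · exact map_zero _

lemma tb_eq (g : Fin r → Fin (P+1)) (v : Fin r → Fin N → ℕ) (η : Fin (P+1) → ℝ) (s : ℝ)
    (k : Fin (P+1)) : tb g η k =
      C ((lmw s (wh (N := N) η) (tc k) : ℝ) : ℂ) + Lf (fun j => av (vh g v) j (tc k)) := by
  unfold tb
  have h1 : lmw s (wh (N := N) η) (tc k) = η k := by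
    unfold lmw tc
    rw [Fin.cons_succ, wh_castAdd]
  rw [h1]
  congr 1
  rw [rn_sgm]
  unfold Lf Sg av tc
  simp only [Fin.cons_succ]
  rw [Fin.sum_univ_succ, Fin.sum_univ_succ, vh_castAdd0]
  simp only [vh_castAdds]
  rw [add_sub_assoc, ← Finset.sum_sub_distrib]
  congr 1
  · simp
  · refine Finset.sum_congr rfl fun j _ => ?_
    split_ifs <;> simp

lemma Y_diff (g : Fin r → Fin (P+1)) (v : Fin r → Fin N → ℕ) (y0 : Fin (r+1) → ℝ)
    (x : Fin (P+1+N+1) → ℝ) (hx : ∀ i, 0 ≤ x i) (k : Fin (P+1)) (hk : x (tc k) = 0)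
    (j : Fin r) (hj : g j = k) :
    Y (av (vh g v)) y0 x 0 + (y0 j.succ - y0 0) ≤ Y (av (vh g v)) y0 x j.succ := by
  unfold Y
  rw [sum_coords, sum_coords]
  have e0 : av (vh g v) 0 0 = -1 := rfl
  have e1 : av (vh g v) j.succ 0 = -1 := rfl
  have e2 : ∀ k', av (vh g v) 0 (tc k') = 1 := by
    intro k'
    unfold av tc
    rw [Fin.cons_succ, vh_castAdd0]
    simp
  have e3 : ∀ i, av (vh g v) 0 (wco i) = 0 := by
    intro k'
    unfold av wco
    rw [Fin.cons_succ, vh_natAdd0]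
    simp
  have e4 : ∀ k', av (vh g v) j.succ (tc k') = if g j = k' then 0 else 1 := by
    intro k'
    unfold av tc
    rw [Fin.cons_succ, vh_castAdds]
    split_ifs <;> simp
  have e5 : ∀ i, av (vh g v) j.succ (wco i) = (v j i : ℝ) := by
    intro k'
    unfold av wco
    rw [Fin.cons_succ, vh_natAdds]
  simp only [e0, e1, e2, e3, e4, e5]
  have h1 : ∑ k' : Fin (P+1), (if g j = k' then (0:ℝ) else 1) * x (tc k') =
      ∑ k' : Fin (P+1), 1 * x (tc k') := by
    refine Finset.sum_congr rfl fun k' _ => ?_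
    split_ifs with h
    · rw [← h, hj, hk]; ring
    · rfl
  rw [h1]
  have h2 : 0 ≤ ∑ i, (v j i : ℝ) * x (wco i) :=
    Finset.sum_nonneg fun i _ => mul_nonneg (Nat.cast_nonneg _) (hx _)
  have h3 : ∑ i : Fin N, (0:ℝ) * x (wco i) = 0 := by simp
  rw [h3]
  linarith

/-- the boundary terms of the directions `β_k` vanish -/
lemma Φ_tb (g : Fin r → Fin (P+1)) (v : Fin r → Fin N → ℕ) (η : Fin (P+1) → ℝ)
    (hη : ∀ k, 0 < η k) (ε : ℝ) (hε : 0 < ε) (s : ℝ) (hs : 0 < s) (y0 : Fin (r+1) → ℝ)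
    (hy : ∀ j : Fin r, ε < y0 j.succ - y0 0) (k : Fin (P+1)) (j : Fin r) (hj : g j = k)
    (p : MvPolynomial (Fin (r+1)) ℂ) :
    Φ (ph ε) ∅ (lmw s (wh (N := N) η)) (av (vh g v)) y0
      (tb g η k * (X 0 * (X j.succ * p))) = 0 := by
  rw [tb_eq g v η s k, Φ_step (ph_dseq ε hε) ∅ _ (lmw_pos s hs _ (wh_pos η hη))
    (av (vh g v)) y0 (tc k) (by simp)]
  refine Φ_eq_zero _ _ _ _ _ fun x hx0 hxS => ?_
  set y := Y (av (vh g v)) y0 x with hyd
  have h1 := Y_diff g v y0 x hx0 k (hxS _ (Finset.mem_insert_self _ _)) j hj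
  rw [← hyd] at h1
  rcases lt_or_ge (y 0) 0 with h0 | h0
  · exact MG.D_neg ε hε y 0 h0 _
  · rw [mul_left_comm]
    refine D_big ε hε y j.succ ?_ _
    linarith [hy j]

/-- the kernel of `J` -/
noncomputable def kkJ (J : Finset (Fin r)) : MvPolynomial (Fin (r+1)) ℂ :=
  X 0 * rn (∏ j ∈ J, X j)

lemma kkJ_eq (J : Finset (Fin r)) : kkJ J = ∏ j ∈ Jh J, X j := by
  unfold kkJ Jh rn
  rw [Finset.prod_insert (by simp [Fin.succ_ne_zero]), Finset.prod_map, map_prod]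
  simp only [rename_X]
  rfl

lemma kkJ_fac (J : Finset (Fin r)) (j : Fin r) (hj : j ∈ J) :
    ∃ q, kkJ J = X 0 * (X j.succ * q) := by
  classical
  refine ⟨rn (∏ i ∈ J.erase j, X i), ?_⟩
  unfold kkJ
  rw [← Finset.mul_prod_erase J _ hj, map_mul]
  unfold rn
  rw [rename_X]

lemma Φ_idealT (g : Fin r → Fin (P+1)) (v : Fin r → Fin N → ℕ) (η : Fin (P+1) → ℝ)
    (hη : ∀ k, 0 < η k) (ε : ℝ) (hε : 0 < ε) (s : ℝ) (hs : 0 < s) (y0 : Fin (r+1) → ℝ)
    (hy : ∀ j : Fin r, ε < y0 j.succ - y0 0) (J : Finset (Fin r))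
    (hJ : ∀ k, ∃ j ∈ J, g j = k)
    (h : MvPolynomial (Fin (r+1)) ℂ) (hh : h ∈ Ideal.span (Set.range (tb g η))) :
    ∀ p : MvPolynomial (Fin (r+1)) ℂ,
      Φ (ph ε) ∅ (lmw s (wh (N := N) η)) (av (vh g v)) y0 (kkJ J * (p * h)) = 0 := by
  refine Submodule.span_induction (p := fun h _ => ∀ p : MvPolynomial (Fin (r+1)) ℂ,
    Φ (ph ε) ∅ (lmw s (wh (N := N) η)) (av (vh g v)) y0 (kkJ J * (p * h)) = 0) ?_ ?_ ?_ ?_ hh
  · rintro _ ⟨k, rfl⟩ p
    obtain ⟨j, hjJ, hj⟩ := hJ k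
    obtain ⟨q, hq⟩ := kkJ_fac J j hjJ
    have h1 : kkJ J * (p * tb g η k) = tb g η k * (X 0 * (X j.succ * (q * p))) := by
      rw [hq]; ring
    rw [h1]
    exact Φ_tb g v η hη ε hε s hs y0 hy k j hj _
  · intro p
    rw [mul_zero, mul_zero]
    have := Φ_C_mul (φ := ph ε) ∅ (lmw s (wh (N := N) η)) (av (vh g v)) y0 0 0
    simpa using this
  · intro x y _ _ hx hy p
    rw [mul_add, mul_add, Φ_add (ph_dseq ε hε) _ _ (lmw_pos s hs _ (wh_pos η hη)), hx, hy,
      add_zero]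
  · intro a x _ hx p
    rw [smul_eq_mul, ← mul_assoc p]
    exact hx _

/-- the restriction to the line -/
noncomputable def evl (η : Fin (P+1) → ℝ) : MvPolynomial (Fin (P+1)) ℂ →ₐ[ℂ] Polynomial ℂ :=
  aeval (fun k => Polynomial.X + Polynomial.C ((η k : ℝ) : ℂ))

lemma evl_X (η : Fin (P+1) → ℝ) (k : Fin (P+1)) :
    evl η (X k) = Polynomial.X + Polynomial.C ((η k : ℝ) : ℂ) := by
  unfold evl
  rw [aeval_X]

lemma eval_evl (η : Fin (P+1) → ℝ) (s : ℝ) (b : MvPolynomial (Fin (P+1)) ℂ) :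
    (evl η b).eval (s : ℂ) = eval (fun k => ((s + η k : ℝ) : ℂ)) b := by
  induction b using MvPolynomial.induction_on with
  | C a => simp [evl]
  | add p q hp hq => rw [map_add, Polynomial.eval_add, hp, hq, map_add]
  | mul_X p i hp =>
    rw [map_mul, Polynomial.eval_mul, hp, map_mul, eval_X, evl_X]
    congr 1
    simp

/-- reduction to one variable -/
lemma bts_sub (g : Fin r → Fin (P+1)) (η : Fin (P+1) → ℝ) (b : MvPolynomial (Fin (P+1)) ℂ) :
    rn (bts g b) - Polynomial.aeval (Sg r) (evl η b) ∈ Ideal.span (Set.range (tb g η)) := by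
  have hX : ∀ i : Fin (P+1), rn (bts g (X i)) - Polynomial.aeval (Sg r) (evl η (X i)) ∈
      Ideal.span (Set.range (tb g η)) := by
    intro i
    have hb : bts g (X i) = sgm g i := by
      unfold bts
      rw [aeval_X]
    rw [hb, evl_X, map_add, Polynomial.aeval_X, Polynomial.aeval_C]
    have h1 : rn (sgm g i) - (Sg r + algebraMap ℂ (MvPolynomial (Fin (r+1)) ℂ) ((η i : ℝ) : ℂ)) =
        -1 * tb g η i := by
      unfold tb
      have h2 : algebraMap ℂ (MvPolynomial (Fin (r+1)) ℂ) ((η i : ℝ) : ℂ) =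
        C ((η i : ℝ) : ℂ) := rfl
      rw [h2]
      ring
    rw [h1]
    exact Ideal.mul_mem_left _ _ (Ideal.subset_span ⟨i, rfl⟩)
  induction b using MvPolynomial.induction_on with
  | C a =>
    have h1 : rn (bts g (C a : MvPolynomial (Fin (P+1)) ℂ)) = C a := by
      unfold bts rn
      rw [aeval_C]
      exact rename_C _ _
    have h2 : evl η (C a : MvPolynomial (Fin (P+1)) ℂ) = Polynomial.C a := by
      unfold evl
      rw [aeval_C]
      rfl
    rw [h1, h2, Polynomial.aeval_C]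
    have h3 : (algebraMap ℂ (MvPolynomial (Fin (r+1)) ℂ)) a = C a := rfl
    rw [h3, sub_self]
    exact Ideal.zero_mem _
  | add p q hp hq =>
    have h1 : rn (bts g (p + q)) - Polynomial.aeval (Sg r) (evl η (p + q)) =
        (rn (bts g p) - Polynomial.aeval (Sg r) (evl η p)) +
        (rn (bts g q) - Polynomial.aeval (Sg r) (evl η q)) := by
      rw [map_add, map_add, map_add, map_add]
      ring
    rw [h1]
    exact Ideal.add_mem _ hp hq
  | mul_X p i hp =>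
    have h1 : rn (bts g (p * X i)) - Polynomial.aeval (Sg r) (evl η (p * X i)) =
        rn (bts g (X i)) * (rn (bts g p) - Polynomial.aeval (Sg r) (evl η p)) +
        Polynomial.aeval (Sg r) (evl η p) *
          (rn (bts g (X i)) - Polynomial.aeval (Sg r) (evl η (X i))) := by
      rw [map_mul, map_mul, map_mul, map_mul]
      ring
    rw [h1]
    exact Ideal.add_mem _ (Ideal.mul_mem_left _ _ hp) (Ideal.mul_mem_left _ _ (hX i))

/-! ### Polynomials in `s` -/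

lemma Φ_indepT (φ : ℕ → ℝ → ℝ) (s : ℝ) (w : Fin n → ℝ)
    (a : Fin r → Fin (n+1) → ℝ) (y0 : Fin r → ℝ) (p : MvPolynomial (Fin r) ℂ) :
    Φ φ {0} (lmw s w) a y0 p = Φ φ {0} (lmw 1 w) a y0 p := by
  unfold Φ
  refine integral_congr_ae ?_
  filter_upwards [ae_ms (M := n+1) {0}] with x hx
  have h0 : x 0 = 0 := hx.2 0 (by simp)
  have : wt (lmw s w) x = wt (lmw 1 w) x := by
    unfold wt
    rw [Fin.prod_univ_succ, Fin.prod_univ_succ, h0]
    simp [lmw]
  simp only [this]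

noncomputable def PeT (v : Fin (r+1) → Fin n → ℕ) (w : Fin n → ℝ) (y0 : Fin (r+1) → ℝ) (ε : ℝ)
    (kk : MvPolynomial (Fin (r+1)) ℂ) (b : Polynomial ℂ) : Polynomial ℂ :=
  ∑ k ∈ Finset.range (b.natDegree + 1), ∑ i ∈ Finset.range k,
    Polynomial.monomial i (b.coeff k *
      Φ (ph ε) {0} (lmw 1 w) (av v) y0 (kk * (Sg r) ^ (k - 1 - i)))

lemma PeT_natDegree (v : Fin (r+1) → Fin n → ℕ) (w : Fin n → ℝ) (y0 : Fin (r+1) → ℝ) (ε : ℝ)
    (kk : MvPolynomial (Fin (r+1)) ℂ) (b : Polynomial ℂ) :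
    (PeT v w y0 ε kk b).natDegree ≤ b.natDegree := by
  unfold PeT
  refine Polynomial.natDegree_sum_le_of_forall_le _ _ fun k hk => ?_
  refine Polynomial.natDegree_sum_le_of_forall_le _ _ fun i hi => ?_
  refine (Polynomial.natDegree_monomial_le _).trans ?_
  simp only [Finset.mem_range] at hk hi
  omega

lemma PeT_eval (v : Fin (r+1) → Fin n → ℕ) (w : Fin n → ℝ) (hw : ∀ i, 0 < w i)
    (y0 : Fin (r+1) → ℝ) (ε : ℝ) (kk : MvPolynomial (Fin (r+1)) ℂ) (b : Polynomial ℂ)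
    (s : ℝ) (hε : 0 < ε) (hs : 0 < s) :
    b.eval (s : ℂ) * Φ (ph ε) ∅ (lmw s w) (av v) y0 kk =
      Φ (ph ε) ∅ (lmw s w) (av v) y0 (kk * Polynomial.aeval (Sg r) b) +
      (PeT v w y0 ε kk b).eval (s : ℂ) := by
  have lpos := lmw_pos s hs w hw
  have lpos1 := lmw_pos 1 one_pos w hw
  set σ : MvPolynomial (Fin (r+1)) ℂ := Sg r with hσ
  set β : MvPolynomial (Fin (r+1)) ℂ := ∑ k ∈ Finset.range (b.natDegree + 1),
    C (b.coeff k) * ∑ i ∈ Finset.range k, (C (s:ℂ)) ^ i * (kk * σ ^ (k - 1 - i)) with hβ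
  have h1 : C (b.eval (s:ℂ)) * kk = kk * Polynomial.aeval σ b + (C (s:ℂ) - σ) * β := by
    have h2 : (C (b.eval (s:ℂ)) : MvPolynomial (Fin (r+1)) ℂ) =
        ∑ k ∈ Finset.range (b.natDegree + 1), C (b.coeff k) * (C (s:ℂ)) ^ k := by
      rw [Polynomial.eval_eq_sum_range, map_sum]
      exact Finset.sum_congr rfl fun k _ => by rw [map_mul, map_pow]
    have h3 : Polynomial.aeval σ b = ∑ k ∈ Finset.range (b.natDegree + 1),
        C (b.coeff k) * σ ^ k := by
      rw [Polynomial.aeval_eq_sum_range]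
      exact Finset.sum_congr rfl fun k _ => by rw [C_mul']
    have hβ' : β = kk * ∑ k ∈ Finset.range (b.natDegree + 1),
        C (b.coeff k) * ∑ i ∈ Finset.range k, (C (s:ℂ)) ^ i * σ ^ (k - 1 - i) := by
      rw [hβ, Finset.mul_sum]
      refine Finset.sum_congr rfl fun k _ => ?_
      rw [mul_left_comm, Finset.mul_sum (a := kk)]
      congr 1
      exact Finset.sum_congr rfl fun i _ => by ring
    have h5 : (C (b.eval (s:ℂ)) : MvPolynomial (Fin (r+1)) ℂ) = Polynomial.aeval σ b +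
        (C (s:ℂ) - σ) * ∑ k ∈ Finset.range (b.natDegree + 1),
        C (b.coeff k) * ∑ i ∈ Finset.range k, (C (s:ℂ)) ^ i * σ ^ (k - 1 - i) := by
      rw [h2, h3, Finset.mul_sum, ← Finset.sum_add_distrib]
      refine Finset.sum_congr rfl fun k _ => ?_
      have h4 := geom_sum₂_mul (C (s:ℂ) : MvPolynomial (Fin (r+1)) ℂ) σ k
      linear_combination (-C (b.coeff k)) * h4
    rw [hβ', h5]
    ring
  have h5 : C (s:ℂ) - σ = C ((lmw s w 0 : ℝ) : ℂ) + Lf (fun j => av v j 0) := by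
    have h6 : lmw s w 0 = s := rfl
    rw [h6, sub_eq_add_neg]
    congr 1
    rw [hσ]
    unfold Lf Sg
    rw [← Finset.sum_neg_distrib]
    refine Finset.sum_congr rfl fun j _ => ?_
    have h7 : av v j 0 = -1 := rfl
    simp only [h7]
    simp
  rw [← Φ_C_mul, h1, Φ_add (ph_dseq ε hε) _ _ lpos]
  congr 1
  rw [h5, Φ_step (ph_dseq ε hε) ∅ _ lpos _ _ 0 (by simp)]
  have h6 : (insert 0 ∅ : Finset (Fin (n+1))) = {0} := rfl
  rw [h6, Φ_indepT, hβ, Φ_sum (ph_dseq ε hε) _ _ lpos1]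
  unfold PeT
  rw [Polynomial.eval_finsetSum]
  refine Finset.sum_congr rfl fun k _ => ?_
  rw [Φ_C_mul, Φ_sum (ph_dseq ε hε) _ _ lpos1, Polynomial.eval_finsetSum,
    Finset.mul_sum]
  refine Finset.sum_congr rfl fun i _ => ?_
  rw [← map_pow, Φ_C_mul, Polynomial.eval_monomial]
  ring

end Pool.Agent.W423.NC
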