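import Pool.Agent.W423.NC.Ev1

set_option autoImplicit false

/-! The evaluation on the lines. -/

namespace Pool.Agent.W423.NC

open MvPolynomial Pool.Agent.H628R4.TZ Pool.Agent.W425.SM
open Pool.Agent.H628R4.TP hiding Sh
open Pool.Agent.W525.SM (Sh)
open Pool.Agent.W423.MG
open MeasureTheory Set Filter Topology

variable {r N P n : ℕ}

lemma yo_h (g : Fin r → Fin (P+1)) (v : Fin r → Fin N → ℕ) (θ : Fin (r+1) → ℝ) (K α0 : ℝ)
    (m : ℕ) : yo (Ah g v) θ (bh K α0) m =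
      yW (vh g v) θ (Fin.append (fun _ => α0) (fun _ => 1)) (K * dl m) (dl m) (dl m ^ 2) := by
  funext j
  unfold yo yW yA Ah bh
  rw [Fin.sum_univ_succ]
  simp only [Fin.cons_zero, Fin.cons_succ]
  have h1 : ∑ i : Fin (P+1+N), ((vh g v j i : ℤ) : ℝ) *
      (Fin.append (fun _ : Fin (P+1) => α0) (fun _ : Fin N => (1:ℝ))) i =
      ∑ i, (Fin.append (fun _ : Fin (P+1) => α0) (fun _ : Fin N => (1:ℝ))) i *
        (vh g v j i : ℝ) := by
    refine Finset.sum_congr rfl fun i _ => ?_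
    push_cast
    ring
  rw [h1]
  push_cast
  ring

lemma sum_app (g : Fin r → Fin (P+1)) (v : Fin r → Fin N → ℕ) (α0 : ℝ) (j : Fin r) :
    ∑ i, (Fin.append (fun _ : Fin (P+1) => α0) (fun _ : Fin N => (1:ℝ))) i *
        (vh g v j.succ i : ℝ) = (P:ℝ) * α0 + ∑ i, (v j i : ℝ) := by
  rw [Fin.sum_univ_add]
  simp only [Fin.append_left, Fin.append_right, vh_castAdds, vh_natAdds, one_mul]
  congr 1
  rw [← Finset.mul_sum]
  have h1 : ∑ k : Fin (P+1), (((if g j = k then 0 else 1 : ℕ)) : ℝ) = P := by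
    have h2 : ∀ k : Fin (P+1), (((if g j = k then 0 else 1 : ℕ)) : ℝ) =
        1 - if g j = k then 1 else 0 := by
      intro k
      split_ifs <;> simp
    simp only [h2]
    rw [Finset.sum_sub_distrib, Finset.sum_ite_eq]
    simp
  rw [h1]
  ring

lemma sum_app0 (g : Fin r → Fin (P+1)) (v : Fin r → Fin N → ℕ) (α0 : ℝ) :
    ∑ i, (Fin.append (fun _ : Fin (P+1) => α0) (fun _ : Fin N => (1:ℝ))) i *
        (vh g v 0 i : ℝ) = ((P:ℝ) + 1) * α0 := by
  rw [Fin.sum_univ_add]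
  simp only [Fin.append_left, Fin.append_right, vh_castAdd0, vh_natAdd0, one_mul]
  simp

lemma yo_diff (g : Fin r → Fin (P+1)) (v : Fin r → Fin N → ℕ) (θ : Fin (r+1) → ℝ) (K α0 : ℝ)
    (m : ℕ) (j : Fin r) : yo (Ah g v) θ (bh K α0) m j.succ - yo (Ah g v) θ (bh K α0) m 0 =
      dl m * (α0 - ∑ i, (v j i : ℝ)) - dl m ^ 2 * (θ j.succ - θ 0) := by
  rw [yo_h]
  unfold yW
  rw [sum_app, sum_app0]
  ring

/-- for large `m` the boundary terms vanish -/
lemma ev_diff (g : Fin r → Fin (P+1)) (v : Fin r → Fin N → ℕ) (θ : Fin (r+1) → ℝ) (K α0 : ℝ)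
    (hα : ∀ j, ∑ i, (v j i : ℝ) < α0) :
    ∀ᶠ m in atTop, ∀ j : Fin r,
      dl m ^ 4 < yo (Ah g v) θ (bh K α0) m j.succ - yo (Ah g v) θ (bh K α0) m 0 := by
  rw [eventually_all]
  intro j
  have h1 : Tendsto (fun m => dl m ^ 3 + dl m * (θ j.succ - θ 0)) atTop
      (𝓝 (0 ^ 3 + 0 * (θ j.succ - θ 0))) :=
    (dl_tendsto.pow 3).add (dl_tendsto.mul_const _)
  have h2 : (0:ℝ) ^ 3 + 0 * (θ j.succ - θ 0) < α0 - ∑ i, (v j i : ℝ) := by
    have := hα j
    simp only [ne_eq, OfNat.ofNat_ne_zero, not_false_eq_true, zero_pow, zero_mul, add_zero]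
    linarith
  filter_upwards [h1.eventually (gt_mem_nhds h2)] with m hm
  rw [yo_diff]
  have hd := dl_pos m
  have h3 := mul_lt_mul_of_pos_left hm hd
  have h4 : dl m * (dl m ^ 3 + dl m * (θ j.succ - θ 0)) =
      dl m ^ 4 + dl m ^ 2 * (θ j.succ - θ 0) := by ring
  rw [h4] at h3
  linarith

lemma card_Jh (J : Finset (Fin r)) : (Jh J).card = J.card + 1 := by
  unfold Jh
  rw [Finset.card_insert_of_notMem (by simp [Fin.succ_ne_zero]), Finset.card_map]

lemma rn_X (J : Finset (Fin r)) (q : MvPolynomial (Fin r) ℂ) (p : MvPolynomial (Fin r) ℂ) (c : ℂ) :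
    rn (C c * ((∏ j ∈ J, X j) * q)) * (X 0 * rn p) = C c * (kkJ J * rn (q * p)) := by
  unfold kkJ
  rw [map_mul, map_mul, map_mul]
  have h1 : rn (C c : MvPolynomial (Fin r) ℂ) = C c := rename_C _ _
  rw [h1]
  ring

theorem eval_of (h1 : TaskKill) (h2 : TaskTrans) (h3 : TaskKer1) (h4 : TaskKer2)
    (h5 : TaskLim) : TaskEval := by
  classical
  intro r N P g v θ hθ hg R hR p hrel η hη
  obtain ⟨θ0, hθ0⟩ := exists_ext θ hθ
  set θh : Fin (r+1) → ℝ := Fin.cons θ0 θ with hθh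
  have hη0 : ∀ k, 0 < η k := fun k => (hη k).1
  set α0 : ℝ := ∑ j, ∑ i, (v j i : ℝ) + 1 with hα0
  have hsn : ∀ j, 0 ≤ ∑ i, (v j i : ℝ) := fun j => Finset.sum_nonneg fun i _ => Nat.cast_nonneg _
  have hα : ∀ j, ∑ i, (v j i : ℝ) < α0 := by
    intro j
    have := Finset.single_le_sum (f := fun j => ∑ i, (v j i : ℝ)) (fun j _ => hsn j)
      (Finset.mem_univ j)
    rw [hα0]
    linarith
  have hα0pos : 0 < α0 := by
    have := Finset.sum_nonneg (s := Finset.univ) (f := fun j => ∑ i, (v j i : ℝ)) fun j _ => hsn j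
    rw [hα0]
    linarith
  obtain ⟨K0, s0, hK0, hs0, hkill⟩ := h1 (vh g v) (wh η) (wh_pos η hη0) θh (rn (E1 g))
    (X 0 * rn (bts g p)) (rn (kerN g v)) (h2 g v θ θ0 η p hrel) (h3 g v η hη)
    (Fin.append (fun _ => α0) (fun _ => 1))
  set K : ℝ := 3 * K0 + 1 with hK
  have hKpos : 0 < K := by positivity
  set JJ := Finset.univ.filter (fun J : Finset (Fin r) => ∀ k, ∃ j ∈ J, g j = k) with hJJ
  have hev1 : ∀ᶠ l in atTop, dl l ^ 2 * K0 < 1 := by
    have a1 : Tendsto (fun l => dl l ^ 2 * K0) atTop (𝓝 (0 ^ 2 * K0)) :=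
      (dl_tendsto.pow 2).mul_const K0
    have a3 : (0:ℝ) ^ 2 * K0 = 0 := by ring
    rw [a3] at a1
    exact a1.eventually (gt_mem_nhds one_pos)
  have hev2 := ev_diff g v θh K α0 hα
  set bJ : Finset (Fin r) → Polynomial ℂ := fun J => evl η (hJ g J * p) with hbJ
  set Dg : ℕ := ∑ J ∈ JJ, (bJ J).natDegree with hDg
  set Pm : ℕ → Polynomial ℂ := fun l => ∑ J ∈ JJ, Polynomial.C ((idxC g v J : ℂ) ^ 2) *
    PeT (vh g v) (wh η) (yo (Ah g v) θh (bh K α0) l) (dl l ^ 4) (kkJ J) (bJ J) with hPm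
  obtain ⟨Q, hQ⟩ := limit_poly' Pm Dg (by
      intro l
      refine Polynomial.natDegree_sum_le_of_forall_le _ _ fun J hJ => ?_
      refine (Polynomial.natDegree_C_mul_le _ _).trans ((PeT_natDegree _ _ _ _ _ _).trans ?_)
      exact Finset.single_le_sum (f := fun J => (bJ J).natDegree) (fun _ _ => Nat.zero_le _) hJ)
    (fun s => ∑ J ∈ JJ, (idxC g v J : ℂ) ^ 2 * ((bJ J).eval (s : ℂ) *
      ((-1) ^ (J.card + 1) * limT g v θ R η J s))) s0 (by
      intro s hs
      have hs' : 0 < s := hs0.trans_le hs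
      have hlim : Tendsto (fun l : ℕ => ∑ J ∈ JJ, (idxC g v J : ℂ) ^ 2 *
          ((bJ J).eval (s : ℂ) * ((-1) ^ (J.card + 1) *
          ∫ x, integA (Ah g v) θh (lmw s (wh η)) (bh K α0) (Jh J) l x
            ∂(Measure.pi (ms (∅ : Finset (Fin (P+1+N+1)))))))) atTop
          (𝓝 (∑ J ∈ JJ, (idxC g v J : ℂ) ^ 2 * ((bJ J).eval (s : ℂ) *
            ((-1) ^ (J.card + 1) * limT g v θ R η J s)))) := by
        refine tendsto_finsetSum _ fun J hJ => ?_
        by_cases hidx : idxC g v J = 0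
        · rw [hidx]
          simp only [Nat.cast_zero, ne_eq, OfNat.ofNat_ne_zero, not_false_eq_true, zero_pow,
            zero_mul]
          exact tendsto_const_nhds
        · refine Tendsto.const_mul _ (Tendsto.const_mul _ (Tendsto.const_mul _ ?_))
          exact h5 g v θ θ0 hθ0 hg R hR η hη0 J hidx (Finset.mem_filter.1 hJ).2 K hKpos α0
            hα0pos s hs'
      refine hlim.congr' ?_
      filter_upwards [hev1, hev2] with l hl hy
      set y0 := yo (Ah g v) θh (bh K α0) l with hy0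
      have hd := dl_pos l
      have hd1 := dl_le l
      have hd2 : 0 < dl l ^ 2 := pow_pos hd 2
      have hd4 : 0 < dl l ^ 4 := pow_pos hd 4
      have hd2' : dl l ^ 2 ≤ dl l := by nlinarith
      have hd4' : dl l ^ 4 ≤ dl l := by
        have : dl l ^ 4 = dl l ^ 2 * dl l ^ 2 := by ring
        rw [this]
        nlinarith
      have hwp := wh_pos (N := N) η hη0
      have lpos := lmw_pos s hs' _ hwp
      -- the kernel
      have e1 := hkill (dl l ^ 4) hd4 (dl l ^ 2) hd2 (by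
          have h5 : dl l ^ 4 * K0 = dl l ^ 2 * (dl l ^ 2 * K0) := by ring
          rw [h5]
          nlinarith) (dl l) (K * dl l) (by
          rw [abs_of_pos hd, hK]
          have h3 : (dl l ^ 4 + dl l + dl l ^ 2) * K0 ≤ (dl l + dl l + dl l) * K0 :=
            mul_le_mul_of_nonneg_right (by linarith) hK0
          nlinarith) s hs
      rw [← yo_h g v θh K α0 l, ← hy0] at e1
      have e2 : rn (kerN g v) * (X 0 * rn (bts g p)) =
          ∑ J ∈ JJ, C ((idxC g v J : ℂ) ^ 2) * (kkJ J * rn (bts g (hJ g J * p))) := by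
        rw [h4 g v hg, map_sum, Finset.sum_mul]
        refine Finset.sum_congr rfl fun J _ => ?_
        rw [rn_X, ← map_mul]
      rw [e2, Φ_sum (ph_dseq _ hd4) _ _ lpos] at e1
      -- one J
      have e3 : ∀ J ∈ JJ, Φ (ph (dl l ^ 4)) ∅ (lmw s (wh η)) (av (vh g v)) y0
          (C ((idxC g v J : ℂ) ^ 2) * (kkJ J * rn (bts g (hJ g J * p)))) =
          (idxC g v J : ℂ) ^ 2 * ((bJ J).eval (s : ℂ) * ((-1) ^ (J.card + 1) *
            ∫ x, integA (Ah g v) θh (lmw s (wh η)) (bh K α0) (Jh J) l x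
              ∂(Measure.pi (ms (∅ : Finset (Fin (P+1+N+1))))))) -
          (Polynomial.C ((idxC g v J : ℂ) ^ 2) *
            PeT (vh g v) (wh η) y0 (dl l ^ 4) (kkJ J) (bJ J)).eval (s : ℂ) := by
        intro J hJm
        rw [Φ_C_mul, Polynomial.eval_mul, Polynomial.eval_C, ← mul_sub]
        congr 1
        have e4 := Φ_XJA (Ah g v) θh (lmw s (wh η)) (bh K α0) l (Jh J)
        rw [aR_Ah, ← kkJ_eq, card_Jh, ← hy0] at e4
        rw [← e4, PeT_eval (vh g v) (wh η) hwp y0 (dl l ^ 4) (kkJ J) (bJ J) s hd4 hs',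
          add_sub_cancel_right]
        have e5 : kkJ J * rn (bts g (hJ g J * p)) =
            kkJ J * Polynomial.aeval (Sg r) (bJ J) + kkJ J * (1 *
              (rn (bts g (hJ g J * p)) - Polynomial.aeval (Sg r) (bJ J))) := by ring
        rw [e5, Φ_add (ph_dseq _ hd4) _ _ lpos,
          Φ_idealT g v η hη0 (dl l ^ 4) hd4 s hs' y0 hy J (Finset.mem_filter.1 hJm).2 _
            (bts_sub g η (hJ g J * p)) 1, add_zero]
      rw [Finset.sum_congr rfl e3, Finset.sum_sub_distrib, sub_eq_zero] at e1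
      rw [e1, hPm, Polynomial.eval_finsetSum])
  refine ⟨-Q, s0, hs0, fun s hs => ?_⟩
  rw [Polynomial.eval_neg, ← hQ s hs, ← Finset.sum_neg_distrib, Finset.mul_sum]
  refine Finset.sum_congr rfl fun J _ => ?_
  rw [hbJ]
  simp only
  rw [eval_evl, map_mul, pow_succ]
  ring

end Pool.Agent.W423.NC
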